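import Pool.Agent.H19.LSB.Stmts

/-!
# Row CAI of the board `lsb`: the centro-affine inequality `L ≤ 2 π`
-/

set_option autoImplicit false

namespace Pool.Agent.H19.LSB

open Real MeasureTheory intervalIntegral

theorem cai (hW : WIRStmt) : CAIStmt := by
  intro r hr hpos hconv hper hL
  -- regularity
  have hr2 : ContDiff ℝ 1 (deriv r) := by
    have h : ContDiff ℝ (1 + 1) r := by
      rw [one_add_one_eq_two]
      exact hr
    exact (contDiff_succ_iff_deriv.mp h).2.2
  have hrd : Differentiable ℝ r := hr.differentiable (by norm_num)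
  have hrd' : Differentiable ℝ (deriv r) := hr2.differentiable (by norm_num)
  have hrc : Continuous r := hr.continuous
  have hrc' : Continuous (deriv r) := hr2.continuous
  have hrc'' : Continuous (deriv (deriv r)) := hr2.continuous_deriv (by norm_num)
  have hr1 : ContDiff ℝ 1 r := hr.of_le (by norm_num)
  -- periodicity
  have hp1 : ∀ t, deriv r (t + π) = deriv r t := by
    intro t
    have h1 : deriv (fun s => r (s + π)) t = deriv r (t + π) := deriv_comp_add_const r π t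
    rw [← h1]
    congr 1
    funext s
    exact hper s
  have hp2 : ∀ t, deriv (deriv r) (t + π) = deriv (deriv r) t := by
    intro t
    have h1 : deriv (fun s => deriv r (s + π)) t = deriv (deriv r) (t + π) :=
      deriv_comp_add_const (deriv r) π t
    rw [← h1]
    congr 1
    funext s
    exact hp1 s
  -- the density
  obtain ⟨ψ, hψ⟩ : ∃ ψ : ℝ → ℝ, ψ = fun t => √((r t + deriv (deriv r) t) / r t) := ⟨_, rfl⟩
  have hψc : Continuous ψ := by
    rw [hψ]
    exact ((hrc.add hrc'').div hrc (fun t => (hpos t).ne')).sqrt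
  have hψp : ∀ t, 0 < ψ t := fun t => by
    rw [hψ]
    exact Real.sqrt_pos.mpr (div_pos (hconv t) (hpos t))
  have hψ2 : ∀ t, r t ^ 2 * ψ t ^ 2 = r t * (r t + deriv (deriv r) t) := fun t => by
    rw [hψ]
    simp only
    rw [Real.sq_sqrt (div_pos (hconv t) (hpos t)).le]
    have := (hpos t).ne'
    field_simp
  have hψper : Function.Periodic ψ π := fun t => by
    rw [hψ]
    simp only
    rw [hper, hp2]
  obtain ⟨θ, hθ⟩ : ∃ θ : ℝ → ℝ, θ = fun t => ∫ s in (0 : ℝ)..t, ψ s := ⟨_, rfl⟩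
  have hθd : ∀ t, HasDerivAt θ (ψ t) t := fun t => by
    rw [hθ]
    exact (hψc.integral_hasStrictDerivAt 0 t).hasDerivAt
  have hθ' : deriv θ = ψ := funext fun t => (hθd t).deriv
  have hθ1 : ContDiff ℝ 1 θ := contDiff_one_iff_deriv.mpr
    ⟨fun t => (hθd t).differentiableAt, by rw [hθ']; exact hψc⟩
  obtain ⟨Λ, hΛ⟩ : ∃ Λ : ℝ, Λ = ∫ s in (0 : ℝ)..π, ψ s := ⟨_, rfl⟩
  have hθp : ∀ t, θ (t + π) = θ t + Λ := by
    intro t
    have h1 : (∫ s in t..t + π, ψ s) = ∫ s in (0 : ℝ)..0 + π, ψ s :=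
      hψper.intervalIntegral_add_eq t 0
    rw [zero_add, ← hΛ] at h1
    rw [hθ]
    simp only
    rw [← h1]
    exact (integral_add_adjacent_intervals (hψc.intervalIntegrable _ _)
      (hψc.intervalIntegrable _ _)).symm
  have h2Λ : (∫ t in (0 : ℝ)..(2 * π), √((r t + deriv (deriv r) t) / r t)) = 2 * Λ := by
    have h1 := hθp π
    have h2 : θ π = Λ := by rw [hθ, hΛ]
    rw [h2] at h1
    have h3 : θ (π + π) = ∫ t in (0 : ℝ)..(2 * π), √((r t + deriv (deriv r) t) / r t) := by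
      rw [hθ, hψ, two_mul]
    rw [← h3, h1]
    ring
  have hπ : 0 < π := Real.pi_pos
  have hΛπ : π ≤ Λ := by rw [h2Λ] at hL; linarith
  have hΛ0 : 0 < Λ := hπ.trans_le hΛπ
  obtain ⟨c, hc⟩ : ∃ c : ℝ, c = π / Λ := ⟨_, rfl⟩
  have hc0 : 0 < c := by rw [hc]; positivity
  have hc1 : c ≤ 1 := by rw [hc]; exact (div_le_one hΛ0).mpr hΛπ
  have hcΛ : c * Λ = π := by rw [hc]; field_simp
  -- the two functions
  obtain ⟨w₁, hw₁⟩ : ∃ w : ℝ → ℝ, w = fun t => r t * Real.cos (c * θ t) := ⟨_, rfl⟩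
  obtain ⟨w₂, hw₂⟩ : ∃ w : ℝ → ℝ, w = fun t => r t * Real.sin (c * θ t) := ⟨_, rfl⟩
  have hw₁c : ContDiff ℝ 1 w₁ := by
    rw [hw₁]
    exact hr1.mul (Real.contDiff_cos.comp (contDiff_const.mul hθ1))
  have hw₂c : ContDiff ℝ 1 w₂ := by
    rw [hw₂]
    exact hr1.mul (Real.contDiff_sin.comp (contDiff_const.mul hθ1))
  have hw₁a : ∀ t, w₁ (t + π) = - w₁ t := by
    intro t
    rw [hw₁]
    simp only
    rw [hper, hθp, mul_add, hcΛ, Real.cos_add_pi]
    ring
  have hw₂a : ∀ t, w₂ (t + π) = - w₂ t := by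
    intro t
    rw [hw₂]
    simp only
    rw [hper, hθp, mul_add, hcΛ, Real.sin_add_pi]
    ring
  have hcθ : ∀ t, HasDerivAt (fun t => c * θ t) (c * ψ t) t := fun t => (hθd t).const_mul c
  have hw₁' : ∀ t, deriv w₁ t = deriv r t * Real.cos (c * θ t) +
      r t * (-Real.sin (c * θ t) * (c * ψ t)) := by
    intro t
    rw [hw₁]
    exact ((hrd t).hasDerivAt.mul (hcθ t).cos).deriv
  have hw₂' : ∀ t, deriv w₂ t = deriv r t * Real.sin (c * θ t) +
      r t * (Real.cos (c * θ t) * (c * ψ t)) := by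
    intro t
    rw [hw₂]
    exact ((hrd t).hasDerivAt.mul (hcθ t).sin).deriv
  have hsq : ∀ t, w₁ t ^ 2 + w₂ t ^ 2 = r t ^ 2 := by
    intro t
    rw [hw₁, hw₂]
    simp only
    have := Real.sin_sq_add_cos_sq (c * θ t)
    linear_combination (r t ^ 2) * this
  have hsq' : ∀ t, deriv w₁ t ^ 2 + deriv w₂ t ^ 2 =
      deriv r t ^ 2 + c ^ 2 * (r t * (r t + deriv (deriv r) t)) := by
    intro t
    rw [hw₁', hw₂', ← hψ2]
    have := Real.sin_sq_add_cos_sq (c * θ t)
    linear_combination (deriv r t ^ 2 + c ^ 2 * (r t ^ 2 * ψ t ^ 2)) * this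
  -- continuity
  have c1 : Continuous w₁ := hw₁c.continuous
  have c2 : Continuous w₂ := hw₂c.continuous
  have c1' : Continuous (deriv w₁) := hw₁c.continuous_deriv (by norm_num)
  have c2' : Continuous (deriv w₂) := hw₂c.continuous_deriv (by norm_num)
  -- integration by parts
  have hparts : (∫ t in (0 : ℝ)..π, (deriv r t * deriv r t + r t * deriv (deriv r) t)) = 0 := by
    rw [integral_eq_sub_of_hasDerivAt (f := fun t => r t * deriv r t)
      (fun t _ => (hrd t).hasDerivAt.mul (hrd' t).hasDerivAt)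
      (((hrc'.mul hrc').add (hrc.mul hrc'')).intervalIntegrable _ _)]
    have h1 := hper 0
    have h2 := hp1 0
    rw [zero_add] at h1 h2
    rw [h1, h2, sub_self]
  obtain ⟨I, hI⟩ : ∃ I : ℝ, I = ∫ t in (0 : ℝ)..π, r t * (r t + deriv (deriv r) t) := ⟨_, rfl⟩
  have hI0 : 0 < I := by
    rw [hI]
    refine intervalIntegral_pos_of_pos_on ?_ (fun t _ => mul_pos (hpos t) (hconv t)) hπ
    exact (hrc.mul (hrc.add hrc'')).intervalIntegrable _ _
  have hsum1 : (∫ t in (0 : ℝ)..π, w₁ t ^ 2) + (∫ t in (0 : ℝ)..π, w₂ t ^ 2) =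
      ∫ t in (0 : ℝ)..π, r t ^ 2 := by
    have i5 : IntervalIntegrable (fun t => w₁ t ^ 2) volume 0 π := (c1.pow 2).intervalIntegrable _ _
    have i6 : IntervalIntegrable (fun t => w₂ t ^ 2) volume 0 π := (c2.pow 2).intervalIntegrable _ _
    rw [← intervalIntegral.integral_add i5 i6]
    exact integral_congr fun t _ => hsq t
  have hsum2 : (∫ t in (0 : ℝ)..π, deriv w₁ t ^ 2) + (∫ t in (0 : ℝ)..π, deriv w₂ t ^ 2) =
      ∫ t in (0 : ℝ)..π, (deriv r t ^ 2 + c ^ 2 * (r t * (r t + deriv (deriv r) t))) := by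
    have i5 : IntervalIntegrable (fun t => deriv w₁ t ^ 2) volume 0 π :=
      (c1'.pow 2).intervalIntegrable _ _
    have i6 : IntervalIntegrable (fun t => deriv w₂ t ^ 2) volume 0 π :=
      (c2'.pow 2).intervalIntegrable _ _
    rw [← intervalIntegral.integral_add i5 i6]
    exact integral_congr fun t _ => hsq' t
  have hdiff : (∫ t in (0 : ℝ)..π, (deriv r t ^ 2 + c ^ 2 * (r t * (r t + deriv (deriv r) t)))) -
      (∫ t in (0 : ℝ)..π, r t ^ 2) = (c ^ 2 - 1) * I := by
    have i1 : IntervalIntegrable (fun t => deriv r t ^ 2 + c ^ 2 * (r t * (r t + deriv (deriv r) t)))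
        volume 0 π :=
      ((hrc'.pow 2).add (continuous_const.mul (hrc.mul (hrc.add hrc'')))).intervalIntegrable _ _
    have i2 : IntervalIntegrable (fun t => r t ^ 2) volume 0 π :=
      (hrc.pow 2).intervalIntegrable _ _
    have i3 : IntervalIntegrable (fun t => deriv r t * deriv r t + r t * deriv (deriv r) t)
        volume 0 π := ((hrc'.mul hrc').add (hrc.mul hrc'')).intervalIntegrable _ _
    have i4 : IntervalIntegrable (fun t => (c ^ 2 - 1) * (r t * (r t + deriv (deriv r) t)))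
        volume 0 π := (continuous_const.mul (hrc.mul (hrc.add hrc''))).intervalIntegrable _ _
    rw [← intervalIntegral.integral_sub i1 i2, hI, ← intervalIntegral.integral_const_mul]
    have h1 : (∫ t in (0 : ℝ)..π, ((deriv r t ^ 2 + c ^ 2 * (r t * (r t + deriv (deriv r) t))) -
        r t ^ 2)) = ∫ t in (0 : ℝ)..π, ((deriv r t * deriv r t + r t * deriv (deriv r) t) +
          (c ^ 2 - 1) * (r t * (r t + deriv (deriv r) t))) :=
      integral_congr fun t _ => by ring
    rw [h1, intervalIntegral.integral_add i3 i4, hparts, zero_add]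
  obtain ⟨W1, E1⟩ := hW w₁ hw₁c hw₁a
  obtain ⟨W2, E2'⟩ := hW w₂ hw₂c hw₂a
  have hle : 0 ≤ (c ^ 2 - 1) * I := by rw [← hdiff, ← hsum1, ← hsum2]; linarith
  have hc2 : c ^ 2 ≤ 1 := by nlinarith
  have hz : (c ^ 2 - 1) * I = 0 :=
    le_antisymm (mul_nonpos_of_nonpos_of_nonneg (by linarith) hI0.le) hle
  rw [hz, ← hsum1, ← hsum2] at hdiff
  obtain ⟨a₁, b₁, h1⟩ := E1 (by linarith)
  obtain ⟨a₂, b₂, h2⟩ := E2' (by linarith)
  refine ⟨a₁ ^ 2 + a₂ ^ 2, a₁ * b₁ + a₂ * b₂, b₁ ^ 2 + b₂ ^ 2, fun t => ?_⟩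
  rw [← hsq, h1, h2]
  ring

end Pool.Agent.H19.LSB
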